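import Pool.Agent.Lib.MP_467fc0_an.Lower

/-! Relations of the largest possible degree for families whose differences have one degree. -/

namespace Pool.Agent.FS.WeylEquality

open Finset Polynomial Pool.Agent.Lib.MP_467fc0_an

variable {K : Type*} [Field K] {ι : Type*}

lemma vander [DecidableEq ι] (t : Finset ι) (a f : ι → K)
    (ha : ∀ i ∈ t, ∀ j ∈ t, i ≠ j → a i ≠ a j)
    (h : ∀ k < t.card, ∑ i ∈ t, f i * a i ^ k = 0) {i : ι} (hi : i ∈ t) : f i = 0 := by
  obtain ⟨g, hg⟩ : ∃ g : K[X], g = ∏ j ∈ t.erase i, (X - C (a j)) := ⟨_, rfl⟩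
  have h1 : g.natDegree < t.card := by
    rw [hg, natDegree_prod_of_monic _ _ fun j _ => monic_X_sub_C _]
    simp only [natDegree_X_sub_C, sum_const, smul_eq_mul, mul_one]
    exact card_erase_lt_of_mem hi
  have h2 : ∑ j ∈ t, f j * g.eval (a j) = 0 := by
    simp only [eval_eq_sum_range' h1, mul_sum]
    rw [sum_comm]
    refine sum_eq_zero fun k hk => ?_
    simp only [mul_left_comm (f _), ← mul_sum]
    rw [h k (mem_range.1 hk), mul_zero]
  rw [sum_eq_single_of_mem i hi fun j hj hne => by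
    rw [hg, eval_prod, prod_eq_zero (mem_erase.2 ⟨hne, hj⟩) (by simp), mul_zero]] at h2
  refine (mul_eq_zero.1 h2).resolve_right ?_
  rw [hg, eval_prod]
  exact prod_ne_zero_iff.2 fun j hj => by
    simpa [sub_eq_zero] using ha i hi j (mem_of_mem_erase hj) (ne_of_mem_erase hj).symm

lemma coeff_comp_top {H P : K[X]} {k D n : ℕ} (hH : H.natDegree ≤ k) (hP : P.natDegree ≤ D)
    (hn : ∀ j < k, j * D < n) : (H.comp P).coeff n = H.coeff k * (P ^ k).coeff n := by
  rw [comp, eval₂_eq_sum_range' _ (Nat.lt_succ_of_le hH), sum_range_succ, coeff_add,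
    finsetSum_coeff, sum_eq_zero fun j hj => ?_, zero_add, coeff_C_mul]
  rw [coeff_C_mul, coeff_eq_zero_of_natDegree_lt ((natDegree_pow_le_of_le j hP).trans_lt
    (hn j (mem_range.1 hj))), mul_zero]

lemma deg_rest {u r : K[X]} {D e : ℕ} (hu : u.natDegree ≤ D) (hr : r.natDegree ≤ e + 1)
    (he : e + 1 < D) (k : ℕ) :
    ((u + r) ^ (k + 1) - u ^ (k + 1) - C ((k : K) + 1) * (u ^ k * r)).natDegree ≤ k * D + e := by
  induction k with
  | zero => simp
  | succ k ih =>
    have h1 : (u + r) ^ (k + 1 + 1) - u ^ (k + 1 + 1) - C (((k + 1 : ℕ) : K) + 1) * (u ^ (k + 1) * r) =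
        (u + r) * ((u + r) ^ (k + 1) - u ^ (k + 1) - C ((k : K) + 1) * (u ^ k * r)) +
          C ((k : K) + 1) * (u ^ k * (r * r)) := by
      simp only [Nat.cast_add, Nat.cast_one, map_add, map_one]
      ring
    rw [h1]
    refine natDegree_add_le_of_degree_le ?_ ?_
    · refine (natDegree_mul_le_of_le (natDegree_add_le_of_degree_le hu (hr.trans he.le)) ih).trans ?_
      rw [add_mul]; omega
    · refine (natDegree_C_mul_le _ _).trans ((natDegree_mul_le_of_le (natDegree_pow_le_of_le k hu)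
        (natDegree_mul_le_of_le hr hr)).trans ?_)
      rw [add_mul]; omega

theorem rigid [CharZero K] [Fintype ι] (P Q : ι → K[X]) {D s : ℕ} (hD : 0 < D)
    (hs : Fintype.card ι = s + 2) {o o' : ι} (hoo : o ≠ o') (h0 : P o = 0)
    (hP : ∀ i j, i ≠ j → (P i - P j).natDegree = D)
    (h : ∀ m n : ℕ, ∑ i, (Q i).eval ((m : K) + (P i).eval (n : K)) = 0) {i0 : ι}
    (hne : (Q i0).coeff s ≠ 0) : ∃ a c : ι → K, ∀ i, P i = C (a i) * P o' + C (c i) := by
  classical
  have hinf : ∀ f : K[X], (∀ n : ℕ, f.eval (n : K) = 0) → f = 0 := by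
    intro f hf
    refine eq_zero_of_infinite_isRoot f ?_
    refine (Set.infinite_range_of_injective (Nat.cast_injective (R := K))).mono ?_
    rintro _ ⟨n, rfl⟩
    exact hf n
  have h1 : ∀ k, ∑ i, (hasseDeriv k (Q i)).comp (P i) = 0 := by
    intro k
    refine hinf _ fun n => ?_
    have h2 : ∑ i, taylor ((P i).eval (n : K)) (Q i) = 0 := by
      refine hinf _ fun m => ?_
      simp only [eval_finsetSum, taylor_eval]
      exact h m n
    have h3 := congrArg (fun f : K[X] => f.coeff k) h2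
    simpa only [finsetSum_coeff, taylor_coeff, coeff_zero, eval_finsetSum, eval_comp] using h3
  have hQ : ∀ i, (Q i).natDegree ≤ s := fun i => natDegree_le_iff_coeff_eq_zero.2 fun j hj =>
    algebraic_complexity P Q (fun a b hab => by rw [hP a b hab]; exact hD) h i j (by omega)
  have hPd : ∀ i, (P i).natDegree ≤ D := fun i => by
    by_cases t : i = o
    · simp [t, h0]
    · simpa [h0] using (hP i o t).le
  have hlc : ∀ i j, i ≠ j → (P i).coeff D ≠ (P j).coeff D := fun i j hij t => by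
    have h2 : P i - P j ≠ 0 := fun t => by have := hP i j hij; rw [t, natDegree_zero] at this; omega
    refine leadingCoeff_ne_zero.2 h2 ?_
    rw [leadingCoeff, hP i j hij, coeff_sub, t, sub_self]
  have hα : (P o').coeff D ≠ 0 := by simpa [h0] using hlc o' o hoo.symm
  have h2 : ∀ k ≤ s, ∀ n, (∀ j < k, j * D < n) → ∑ i, (Q i).coeff s * (P i ^ k).coeff n = 0 := by
    intro k hk n hn
    have h3 := congrArg (fun f : K[X] => f.coeff n) (h1 (s - k))
    simp only [finsetSum_coeff, coeff_zero] at h3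
    rw [sum_congr rfl fun i _ => coeff_comp_top (k := k)
      ((natDegree_hasseDeriv_le _ _).trans (by have := hQ i; omega)) (hPd i) hn] at h3
    simp only [hasseDeriv_coeff, show k + (s - k) = s by omega, mul_assoc, ← mul_sum] at h3
    exact (mul_eq_zero.1 h3).resolve_left (by
      exact_mod_cast (Nat.choose_pos (Nat.sub_le s k)).ne')
  obtain ⟨a, ha⟩ : ∃ a : ι → K, ∀ i, (P i).coeff D = a i * (P o').coeff D :=
    ⟨fun i => (P i).coeff D / (P o').coeff D, fun i => (div_mul_cancel₀ _ hα).symm⟩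
  have hinj : ∀ i j, i ≠ j → a i ≠ a j := fun i j hij t => hlc i j hij (by rw [ha i, ha j, t])
  have h3 : ∀ k ≤ s, ∑ i, (Q i).coeff s * a i ^ k = 0 := fun k hk => by
    have h4 := h2 k hk (k * D) fun j hj => Nat.mul_lt_mul_of_pos_right hj hD
    simp only [coeff_pow_of_natDegree_le (hPd _)] at h4
    rw [sum_congr rfl fun i _ => by rw [ha i, mul_pow, ← mul_assoc], ← sum_mul] at h4
    exact (mul_eq_zero.1 h4).resolve_right (pow_ne_zero _ hα)
  have h4 : ∀ i, (Q i).coeff s ≠ 0 := fun i t => by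
    have hi : i0 ≠ i := fun e => hne (e ▸ t)
    refine hne (vander (univ.erase i) a (fun i => (Q i).coeff s) (fun i _ j _ => hinj i j)
      (fun k hk => ?_) (mem_erase.2 ⟨hi, mem_univ _⟩))
    rw [card_erase_of_mem (mem_univ _), card_univ] at hk
    rw [sum_erase _ (by rw [t, zero_mul]), h3 k (by omega)]
  obtain ⟨r, hr⟩ : ∃ r : ι → K[X], ∀ i, P i = C (a i) * P o' + r i :=
    ⟨fun i => P i - C (a i) * P o', fun i => by ring⟩
  have hu : ∀ i, (C (a i) * P o').natDegree ≤ D := fun i => (natDegree_C_mul_le _ _).trans (hPd _)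
  have hr' : ∀ i, r i = P i - C (a i) * P o' := fun i => by rw [eq_sub_iff_add_eq', ← hr]
  have hro : r o = 0 := by
    have : a o = 0 := (mul_eq_zero.1 ((ha o).symm.trans (by simp [h0]))).resolve_right hα
    simp [hr', h0, this]
  have hro' : r o' = 0 := by
    have : a o' = 1 := mul_right_cancel₀ hα ((ha o').symm.trans (one_mul _).symm)
    simp [hr', this]
  obtain ⟨i1, -, hi1⟩ := exists_max_image univ (fun i => (r i).natDegree) ⟨o, mem_univ _⟩
  rcases hE : (r i1).natDegree with _ | e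
  · refine ⟨a, fun i => (r i).coeff 0, fun i => ?_⟩
    rw [← eq_C_of_natDegree_le_zero (hE ▸ hi1 i (mem_univ _)), ← hr]
  exfalso
  have hre : ∀ i, (r i).natDegree ≤ e + 1 := fun i => hE ▸ hi1 i (mem_univ _)
  have hb : (r i1).coeff (e + 1) ≠ 0 := by
    rw [← hE]
    exact leadingCoeff_ne_zero.2 fun t => by simp [t] at hE
  have he : e + 1 < D := by
    have h5 : (r i1).natDegree ≤ D := by rw [hr']; exact natDegree_sub_le_of_le (hPd _) (hu _) |>.trans (by simp)
    refine lt_of_le_of_ne (hE ▸ h5) fun t => hb ?_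
    rw [t, hr', coeff_sub, coeff_C_mul, ha i1, sub_self]
  have h5 : ∀ k < s, ∑ i, (Q i).coeff s * (r i).coeff (e + 1) * a i ^ k = 0 := fun k hk => by
    have h6 := h2 (k + 1) hk (k * D + (e + 1)) fun j hj => by
      have := Nat.mul_le_mul_right D (Nat.lt_succ_iff.1 hj); omega
    have h7 : ∀ i, (P i ^ (k + 1)).coeff (k * D + (e + 1)) =
        a i ^ (k + 1) * (P o' ^ (k + 1)).coeff (k * D + (e + 1)) +
          ((k : K) + 1) * (P o').coeff D ^ k * ((r i).coeff (e + 1) * a i ^ k) := fun i => by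
      have h8 := coeff_eq_zero_of_natDegree_lt ((deg_rest (hu i) (hre i) he k).trans_lt
        (show k * D + e < k * D + (e + 1) by omega))
      rw [← hr, coeff_sub, coeff_sub, coeff_C_mul,
        coeff_mul_add_eq_of_natDegree_le (natDegree_pow_le_of_le k (hu i)) (hre i),
        coeff_pow_of_natDegree_le (hu i), mul_pow, ← map_pow, coeff_C_mul, coeff_C_mul] at h8
      linear_combination h8
    have h8 : (((k : K) + 1) * (P o').coeff D ^ k) *
        ∑ i, (Q i).coeff s * (r i).coeff (e + 1) * a i ^ k = 0 := by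
      rw [← h6, ← zero_add (_ * ∑ i, _), ← zero_mul ((P o' ^ (k + 1)).coeff (k * D + (e + 1))),
        ← h3 (k + 1) hk, mul_sum, sum_mul, ← sum_add_distrib]
      exact sum_congr rfl fun i _ => by rw [h7 i]; ring
    exact (mul_eq_zero.1 h8).resolve_left (mul_ne_zero (Nat.cast_add_one_ne_zero k)
      (pow_ne_zero _ hα))
  have hi : i1 ∈ (univ.erase o).erase o' := mem_erase.2 ⟨fun t => hb (by simp [t, hro']),
    mem_erase.2 ⟨fun t => hb (by simp [t, hro]), mem_univ _⟩⟩
  refine mul_ne_zero (h4 i1) hb (vander _ a (fun i => (Q i).coeff s * (r i).coeff (e + 1))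
    (fun i _ j _ => hinj i j) (fun k hk => ?_) hi)
  rw [card_erase_of_mem (mem_erase.2 ⟨hoo.symm, mem_univ _⟩), card_erase_of_mem (mem_univ _),
    card_univ] at hk
  rw [sum_erase _ (by simp [hro']), sum_erase _ (by simp [hro]), h5 k (by omega)]

end Pool.Agent.FS.WeylEquality
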