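import Pool.Agent.FS.WeylEquality.Alg

/-! From bounds on the degree of relations to characteristic factors, and the relation of a family
of multiples of one polynomial. -/

namespace Pool.Agent.FS.WeylEquality

open Finset Filter Topology MeasureTheory Polynomial Pool.Agent.Lib.MP_467fc0_an
open scoped ENNReal

section
variable {ι : Type} [Fintype ι] {T : Equiv.Perm (Tor ι)} {N : Module.End ℤ (GG ι)} {M : ℕ}
  (hW : Setup T N M)

include hW in
lemma nul_of_alg {l e : ℕ} (P : Option (Fin l) → ℤ[X]) (h0 : P none = 0)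
    (halg : ∀ Q : Option (Fin l) → ℚ[X], (∀ m n : ℕ, ∑ o, (Q o).eval
      ((m : ℚ) + ((P o).map (Int.castRingHom ℚ)).eval (n : ℚ)) = 0) →
      ∀ o j, e ≤ j → (Q o).coeff j = 0)
    (g : Fin l → GG ι) (s0 : GG ι)
    (h : ∀ n : ℕ, ∑ i, Phi N M ((P (some i)).eval (n : ℤ)) (g i) - s0 ∈ Nul ι) (i : Fin l) :
    (N ^ e) (g i) ∈ Nul ι := by
  refine mem_nul_of_forall fun L hL => Qp_vanish hW.hN L (g i) e fun j hj => ?_
  refine halg (fun o => o.elim (-Qp N M L s0) fun i => Qp N M L (g i)) ?_ (some i) j hj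
  intro m n
  have h1 := hL _ (h n)
  rw [← Phi_nul (M := M) hW.hN0 m (h n), map_sub, map_sub, map_sum, map_sum] at h1
  rw [Fintype.sum_option]
  simp only [Option.elim, h0, Polynomial.map_zero, eval_zero, add_zero, eval_neg]
  have e0 := Qp_eval (N := N) (M := M) L s0 m
  have e1 : ∀ i, (Qp N M L (g i)).eval
      ((m : ℚ) + ((P (some i)).map (Int.castRingHom ℚ)).eval (n : ℚ)) =
      L (Phi N M m (Phi N M ((P (some i)).eval (n : ℤ)) (g i))) := by
    intro i
    rw [← Module.End.mul_apply, ← Phi_add hW.hN, ← Qp_eval, eval_natCast_map]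
    simp
  simp only [e1]
  rw [Int.cast_natCast] at e0
  rw [e0]
  linarith

include hW in
theorem isCharacteristic_rigid {k δ : ℕ} (hδ : 0 < δ) (P : Option (Fin (k + 3)) → ℤ[X])
    (h0 : P none = 0) (hP : ∀ i j, i ≠ j → (P i - P j).natDegree = δ)
    (hn : ¬∃ (q : ℚ[X]) (a c : Fin (k + 3) → ℚ),
      ∀ i, (P (some i)).map (Int.castRingHom ℚ) = C (a i) * q + C (c i)) :
    ∀ Z, @IsHostKraFactor _ Z MeasurableSpace.pi (haar ι) T (k + 1) →
      @IsCharacteristic _ Z MeasurableSpace.pi _ (haar ι) T (fun i => P (some i)) := by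
  have hinj : Function.Injective (Int.castRingHom ℚ) := Int.cast_injective
  have hd : ∀ a b, a ≠ b → ((taylor 1 (P a)).map (Int.castRingHom ℚ) -
      (taylor 1 (P b)).map (Int.castRingHom ℚ)).natDegree = δ := fun a b h => by
    rw [← Polynomial.map_sub, natDegree_map_eq_of_injective hinj, ← map_sub, natDegree_taylor,
      hP a b h]
  have key := mavg_of_rel hW (e := k + 2) (fun i => taylor 1 (P (some i)))
    (nul_of_alg hW (fun o => taylor 1 (P o)) (by simp [h0]) fun Q hQ o j hj => by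
      rcases hj.eq_or_lt with rfl | hj
      · by_contra hne
        obtain ⟨a, c, h⟩ := rigid (fun o => (taylor 1 (P o)).map (Int.castRingHom ℚ)) Q hδ
          (s := k + 2) (by simp) (o := none) (o' := some 0) (by simp) (by simp [h0]) hd hQ hne
        refine hn ⟨(P (some 0)).map (Int.castRingHom ℚ), fun i => a (some i), fun i => c (some i),
          fun i => ?_⟩
        have h1 := congrArg (taylor (-1 : ℚ)) (h (some i))
        simpa [map_taylor, taylor_taylor, taylor_mul, taylor_C] using h1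
      · exact algebraic_complexity _ Q (fun a b h => by rw [hd a b h]; exact hδ) hQ o j
          (by simp; omega))
  have h1 := fun f hf h0 g hg => fc_eq_zero hW k (f := f) hf h0 (g := g) hg
  have h2 := hW.mp
  intro Z hZ f hf
  simp only [polyAvg_eq]
  exact @telescope _ Z MeasurableSpace.pi _ _ hZ.1 _ _ (fun n i => h2 _)
    (fun j f hf h0 => key j f hf fun ξ hξ => h1 _ (hf j) ((hZ.2.2 _ (hf j)).mp h0) _ hξ) _ hf

end

lemma exists_rel {s δ : ℕ} (hδ : 0 < δ) (p : Fin (s + 1) → ℤ[X]) (hp : ∀ i, (p i).natDegree = δ)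
    {q : ℚ[X]} {a c : Fin (s + 1) → ℚ}
    (h : ∀ i, (p i).map (Int.castRingHom ℚ) = C (a i) * q + C (c i)) :
    ∃ (Q : Option (Fin (s + 1)) → ℤ[X]) (j : Fin (s + 1)),
      (∀ n : ℤ, ∑ o, taylor ((Option.elim o 0 p).eval n) (Q o) = 0) ∧
      (∀ o, (Q o).natDegree ≤ s) ∧ (Q (some j)).coeff s ≠ 0 := by
  obtain ⟨α, hα⟩ : ∃ α : Option (Fin (s + 1)) → ℤ, ∀ o, α o = (Option.elim o 0 p).coeff δ :=
    ⟨_, fun _ => rfl⟩
  have h1 : ¬LinearIndependent ℤ fun o (k : Fin (s + 1)) => α o ^ (k : ℕ) := fun t => by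
    simpa using t.fintype_card_le_finrank
  obtain ⟨w, hw, o, ho⟩ := Fintype.not_linearIndependent_iff.1 h1
  have h2 : ∀ k < s + 1, ∑ o, w o * α o ^ k = 0 := fun k hk => by
    simpa using congrFun hw ⟨k, hk⟩
  obtain ⟨j, hj⟩ : ∃ j, w (some j) ≠ 0 := by
    by_contra! t
    have h3 := h2 0 (by omega)
    rw [Fintype.sum_option] at h3
    rcases o with _ | i
    · exact ho (by simpa [t] using h3)
    · exact ho (t i)
  have h3 : ∀ i, (α (some i) : ℚ) = a i * q.coeff δ := fun i => by
    have := congrArg (fun f => coeff f δ) (h i)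
    simpa [hα, coeff_C_of_ne_zero hδ.ne'] using this
  have h4 : q.coeff δ ≠ 0 := fun t => by
    have h5 : p 0 ≠ 0 := fun e => by have := hp 0; rw [e, natDegree_zero] at this; omega
    have h6 := h3 0
    rw [t, mul_zero, hα, Int.cast_eq_zero, ← hp 0] at h6
    exact leadingCoeff_ne_zero.2 h5 h6
  refine ⟨fun o => C (w o) * (X - C ((Option.elim o 0 p).eval 0)) ^ s, j, fun n => ?_,
    fun o => (natDegree_C_mul_le _ _).trans (natDegree_pow_le.trans (by
      rw [natDegree_X_sub_C, mul_one])), ?_⟩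
  · obtain ⟨τ, hτ⟩ : ∃ τ : ℚ, ∀ o, (((Option.elim o 0 p).eval n - (Option.elim o 0 p).eval 0 : ℤ) : ℚ)
        = α o * τ := by
      refine ⟨(q.eval (n : ℚ) - q.eval 0) / q.coeff δ, ?_⟩
      rintro (_ | i)
      · simp [hα]
      · have e1 := congrArg (eval (n : ℚ)) (h i)
        have e2 := congrArg (eval ((0 : ℤ) : ℚ)) (h i)
        rw [eval_intCast_map] at e1 e2
        simp only [eq_intCast, Int.cast_id, eval_add, eval_mul, eval_C, Int.cast_zero] at e1 e2
        simp only [Option.elim, Int.cast_sub, e1, e2, h3]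
        field_simp
        ring
    refine Polynomial.funext fun x => ?_
    rw [eval_finsetSum, eval_zero]
    simp only [taylor_eval, eval_mul, eval_C, eval_pow, eval_sub, eval_X, add_sub_assoc]
    rw [← Int.cast_eq_zero (α := ℚ), Int.cast_sum]
    simp only [Int.cast_mul, Int.cast_pow, Int.cast_add, hτ, add_comm (x : ℚ)]
    simp only [add_pow, mul_sum]
    rw [sum_comm]
    refine sum_eq_zero fun k hk => ?_
    have h5 : ∑ o, (w o : ℚ) * (α o : ℚ) ^ k = 0 := by exact_mod_cast h2 k (mem_range.1 hk)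
    rw [← zero_mul (τ ^ k * (x : ℚ) ^ (s - k) * (s.choose k : ℚ)), ← h5, sum_mul]
    exact sum_congr rfl fun o _ => by ring
  · have h5 := ((monic_X_sub_C ((p j).eval 0)).pow (n := s)).coeff_natDegree
    rw [(monic_X_sub_C _).natDegree_pow, natDegree_X_sub_C, mul_one] at h5
    simp only [coeff_C_mul, Option.elim, h5, mul_one]
    exact hj

end Pool.Agent.FS.WeylEquality
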